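import Mathlib
import Pool.Agent.Lib.MP_0e8110_lc.Poly

set_option autoImplicit false

open Pool.Agent.Lib.MP_0e8110_lc Pointwise

namespace Pool.Agent.Results.MP_0e8110_lc.ThinRays

/-- The rational polyhedron `{x ∈ ℝⁿ : A x ≤ b}`. -/
def polyhedron {m n : ℕ} (A : Matrix (Fin m) (Fin n) ℚ) (b : Fin m → ℚ) :
    Set (EuclideanSpace ℝ (Fin n)) :=
  {x | ∀ i, ∑ j, (A i j : ℝ) * x j ≤ (b i : ℝ)}

/-- The integer points `ℤⁿ` of Euclidean space. -/
def integerPoints (n : ℕ) : Set (EuclideanSpace ℝ (Fin n)) :=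
  {x | ∀ j, ∃ k : ℤ, x j = (k : ℝ)}

/-- The ray `R(y,d) = {y + t d : t ≥ 0}`. -/
def ray {n : ℕ} (y d : EuclideanSpace ℝ (Fin n)) : Set (EuclideanSpace ℝ (Fin n)) :=
  {x | ∃ t : ℝ, 0 ≤ t ∧ x = y + t • d}

/-- The infimum, in the extended reals, of the polynomial function `f` over the set `S`. -/
noncomputable def infOver {n : ℕ} (f : MvPolynomial (Fin n) ℝ)
    (S : Set (EuclideanSpace ℝ (Fin n))) : EReal :=
  ⨅ x ∈ S, ((MvPolynomial.eval (fun j => x j) f : ℝ) : EReal)

/-- `R(y,d)` is a ray of `P` (with `d ≠ 0`) such that for every `ε > 0` the infimum of `f` over the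
integer points of `P` in the Minkowski sum `R(y,d) + B_ε` is `-∞`. -/
def IsUnboundedThinRay {n : ℕ} (P : Set (EuclideanSpace ℝ (Fin n))) (f : MvPolynomial (Fin n) ℝ)
    (y d : EuclideanSpace ℝ (Fin n)) : Prop :=
  d ≠ 0 ∧ ray y d ⊆ P ∧
    ∀ ε : ℝ, 0 < ε →
      infOver f (P ∩ integerPoints n ∩ (ray y d + Metric.closedBall 0 ε)) = ⊥

lemma infOver_eq_bot {n : ℕ} (f : MvPolynomial (Fin n) ℝ) (S : Set (EuclideanSpace ℝ (Fin n))) :
    infOver f S = ⊥ ↔ ∀ M : ℝ, ∃ x ∈ S, MvPolynomial.eval (fun j => x j) f < M := by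
  unfold infOver
  rw [iInf₂_eq_bot]
  constructor
  · intro h M
    obtain ⟨x, hx, hlt⟩ := h (M : EReal) (EReal.bot_lt_coe M)
    exact ⟨x, hx, by exact_mod_cast hlt⟩
  · intro h b hb
    induction b using EReal.rec with
    | bot => exact absurd hb (lt_irrefl _)
    | coe M =>
      obtain ⟨x, hx, hlt⟩ := h M
      exact ⟨x, hx, by exact_mod_cast hlt⟩
    | top =>
      obtain ⟨x, hx, hlt⟩ := h 0
      exact ⟨x, hx, EReal.coe_lt_top _⟩

/-- **The thin ray theorem.** In every dimension, for every rational polyhedron `P` and every real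
cubic function `f`, the infimum of `f` over `P ∩ ℤⁿ` is `-∞` exactly when `P` has an unbounded thin
ray for `f`. -/
theorem result (n m : ℕ) (A : Matrix (Fin m) (Fin n) ℚ) (b : Fin m → ℚ)
    (f : MvPolynomial (Fin n) ℝ) (hf : f.totalDegree ≤ 3) :
    infOver f (polyhedron A b ∩ integerPoints n) = ⊥ ↔
      ∃ y d : EuclideanSpace ℝ (Fin n), IsUnboundedThinRay (polyhedron A b) f y d := by
  constructor
  · intro hinf
    rw [infOver_eq_bot] at hinf
    -- multilinear data of `f`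
    obtain ⟨T, B, l, c, hcub⟩ := poly_R3 f hf
    -- integral constraints
    have hden : ∀ i : Fin m, ∃ N : ℕ, 0 < N ∧ ∃ α : Fin n → ℤ, ∀ j, (N : ℝ) * (A i j : ℝ) = α j := by
      intro i
      obtain ⟨N, hN, h⟩ := clear_denoms (fun j => A i j)
      choose α hα using h
      refine ⟨N, hN, α, fun j => ?_⟩
      exact_mod_cast hα j
    choose N hN α hα using hden
    set a : Fin m → (Fin n → ℤ) := fun i j => - α i j with ha
    set β : Fin m → ℝ := fun i => -((N i : ℝ) * (b i : ℝ)) with hβ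
    have hdza : ∀ (i : Fin m) (x : EuclideanSpace ℝ (Fin n)),
        dz (a i) x = -((N i : ℝ) * ∑ j, (A i j : ℝ) * x j) := by
      intro i x
      rw [dz_apply, Finset.mul_sum, ← Finset.sum_neg_distrib]
      apply Finset.sum_congr rfl
      intro j _
      simp only [ha]
      push_cast
      rw [← hα i j]
      ring
    have hNpos : ∀ i, (0 : ℝ) < N i := fun i => by exact_mod_cast hN i
    have hP : ∀ x : EuclideanSpace ℝ (Fin n), x ∈ polyhedron A b ↔ ∀ i, β i ≤ dz (a i) x := by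
      intro x
      change (∀ i, ∑ j, (A i j : ℝ) * x j ≤ (b i : ℝ)) ↔ ∀ i, β i ≤ dz (a i) x
      apply forall_congr'
      intro i
      rw [hdza, hβ]
      simp only [neg_le_neg_iff]
      exact (mul_le_mul_iff_right₀ (hNpos i)).symm
    have hip : ∀ x ∈ integerPoints n, ∃ z : Fin n → ℤ, x = ip z := by
      intro x hx
      choose z hz using hx
      refine ⟨z, ?_⟩
      ext j
      rw [hz j, ip_apply]
    have hipmem : ∀ z : Fin n → ℤ, ip z ∈ integerPoints n := by
      intro z j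
      exact ⟨z j, rfl⟩
    have hthin := thin_of_unbounded T B l c a β (Fintype.card (Fin m)) ∅ 0 (by simp) (by
      intro M
      obtain ⟨x, ⟨hxP, hxZ⟩, hlt⟩ := hinf M
      obtain ⟨z, rfl⟩ := hip x hxZ
      refine ⟨z, (hP _).mp hxP, by simp, ?_⟩
      rw [← hcub]
      exact hlt)
    obtain ⟨y, d, hd0, hyβ, -, hdj, -, hthin⟩ := hthin
    refine ⟨y, d, hd0, ?_, ?_⟩
    · rintro x ⟨t, ht, rfl⟩
      rw [hP]
      intro i
      rw [map_add, map_smul, smul_eq_mul]
      have h1 := hyβ i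
      have h2 := mul_nonneg ht (hdj i)
      linarith
    · intro ε hε
      rw [infOver_eq_bot]
      intro M
      obtain ⟨z, hzβ, -, ⟨t, ht, hnorm⟩, hlt⟩ := hthin ε hε M
      refine ⟨ip z, ⟨⟨(hP _).mpr hzβ, hipmem z⟩, ?_⟩, ?_⟩
      · rw [Set.mem_add]
        refine ⟨y + t • d, ⟨t, ht, rfl⟩, ip z - (y + t • d), ?_, by abel⟩
        rw [mem_closedBall_zero_iff]
        exact hnorm
      · have h5 : MvPolynomial.eval (fun j => (ip z : EuclideanSpace ℝ (Fin n)) j) f =
            cub T B l c (ip z) := hcub (ip z)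
        rw [h5]
        exact hlt
  · rintro ⟨y, d, -, -, h⟩
    have h1 := h 1 one_pos
    rw [infOver_eq_bot] at h1 ⊢
    intro M
    obtain ⟨x, hx, hlt⟩ := h1 M
    exact ⟨x, hx.1, hlt⟩

end Pool.Agent.Results.MP_0e8110_lc.ThinRays
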